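import Mathlib

/-!
# A nonempty Zariski open subset of an irreducible variety is dense in the classical topology
-/

set_option autoImplicit false
set_option synthInstance.maxHeartbeats 400000

namespace Pool.Agent.J6H35.FM

open Polynomial Filter Topology

theorem ext_hom' {C A Ω : Type} [CommRing C] [CommRing A] [Algebra C A] [Algebra.IsIntegral C A]
    [Field Ω] [IsAlgClosed Ω] (φ : C →+* Ω) (hker : ∀ c, algebraMap C A c = 0 → φ c = 0) :
    ∃ ψ : A →+* Ω, ∀ c, ψ (algebraMap C A c) = φ c := by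
  classical
  obtain ⟨p, hpd⟩ : ∃ p, p = RingHom.ker φ := ⟨_, rfl⟩
  have hp : p.IsPrime := by
    rw [hpd]
    exact RingHom.ker_isPrime φ
  obtain ⟨Q, -, hQ, hQc⟩ := Ideal.exists_ideal_over_prime_of_isIntegral p (⊥ : Ideal A) (by
    intro c hc
    rw [Ideal.mem_comap, Ideal.mem_bot] at hc
    rw [hpd, RingHom.mem_ker]
    exact hker c hc)
  have hlo : Q.LiesOver p := ⟨hQc.symm⟩
  let κ : C ⧸ p →+* Ω := Ideal.Quotient.lift p φ fun c hc => by
    rw [hpd, RingHom.mem_ker] at hc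
    exact hc
  have hκ : Function.Injective κ := by
    rw [injective_iff_map_eq_zero]
    intro b hb
    obtain ⟨c, rfl⟩ := Ideal.Quotient.mk_surjective b
    rw [Ideal.Quotient.eq_zero_iff_mem, hpd, RingHom.mem_ker]
    exact hb
  let _ : Algebra (C ⧸ p) Ω := κ.toAlgebra
  have hd1 : IsDomain (C ⧸ p) := (Ideal.Quotient.isDomain_iff_prime p).2 hp
  have hd2 : IsDomain (A ⧸ Q) := (Ideal.Quotient.isDomain_iff_prime Q).2 hQ
  have hf1 : FaithfulSMul (C ⧸ p) Ω := (faithfulSMul_iff_algebraMap_injective _ _).2 hκ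
  have hf2 : FaithfulSMul (C ⧸ p) (A ⧸ Q) := by
    rw [faithfulSMul_iff_algebraMap_injective, injective_iff_map_eq_zero]
    intro b hb
    obtain ⟨c, rfl⟩ := Ideal.Quotient.mk_surjective b
    have h1 : Ideal.Quotient.mk Q (algebraMap C A c) = 0 := hb
    rw [Ideal.Quotient.eq_zero_iff_mem] at h1 ⊢
    rw [← hQc]
    exact h1
  have hint : Algebra.IsIntegral (C ⧸ p) (A ⧸ Q) := by
    refine ⟨fun b => ?_⟩
    obtain ⟨y, rfl⟩ := Ideal.Quotient.mk_surjective b
    obtain ⟨P, hP, hPy⟩ := Algebra.IsIntegral.isIntegral (R := C) y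
    refine ⟨P.map (Ideal.Quotient.mk p), hP.map _, ?_⟩
    rw [eval₂_map]
    have h1 := hom_eval₂ P (algebraMap C A) (Ideal.Quotient.mk Q) y
    rw [hPy, map_zero] at h1
    exact h1.symm
  let f : (A ⧸ Q) →ₐ[C ⧸ p] Ω := IsAlgClosed.lift
  refine ⟨f.toRingHom.comp (Ideal.Quotient.mk Q), fun c => ?_⟩
  exact f.commutes (Ideal.Quotient.mk p c)

/-- a point of `A` over a point of `P` with a prescribed value of `x` -/
theorem exists_point {P A : Type} [CommRing P] [IsDomain P] [IsIntegrallyClosed P] [CommRing A]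
    [IsDomain A] [Algebra P A] [Algebra.IsIntegral P A] [FaithfulSMul P A]
    (x : A) (φ : P →+* ℂ) (T : ℂ) (hT : eval₂ φ T (minpoly P x) = 0) :
    ∃ ψ : A →+* ℂ, (∀ a, ψ (algebraMap P A a) = φ a) ∧ ψ x = T := by
  have hx : IsIntegral P x := Algebra.IsIntegral.isIntegral x
  let alg : Algebra P[X] A := (aeval x : P[X] →ₐ[P] A).toRingHom.toAlgebra
  have hmap : ∀ q : P[X], algebraMap P[X] A q = aeval x q := fun _ => rfl
  have : Algebra.IsIntegral P[X] A := by
    refine ⟨fun a => ?_⟩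
    obtain ⟨M, hM, hMa⟩ := Algebra.IsIntegral.isIntegral (R := P) a
    refine ⟨M.map (C : P →+* P[X]), hM.map _, ?_⟩
    rw [eval₂_map]
    have h1 : (algebraMap P[X] A).comp (C : P →+* P[X]) = algebraMap P A := by
      ext b
      rw [RingHom.comp_apply, hmap, aeval_C]
    rw [h1]
    exact hMa
  obtain ⟨ψ, hψ⟩ := ext_hom' (C := P[X]) (A := A) (eval₂RingHom φ T) (by
    intro q hq
    rw [hmap] at hq
    obtain ⟨q', rfl⟩ := minpoly.isIntegrallyClosed_dvd hx hq
    rw [map_mul]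
    have : (eval₂RingHom φ T) (minpoly P x) = 0 := hT
    rw [this, zero_mul])
  refine ⟨ψ, fun a => ?_, ?_⟩
  · have h1 := hψ (C a)
    rw [hmap, aeval_C, coe_eval₂RingHom, eval₂_C] at h1
    exact h1
  · have h1 := hψ X
    rw [hmap, aeval_X, coe_eval₂RingHom, eval₂_X] at h1
    exact h1

theorem prod_ge (s : Multiset ℂ) (δ : ℝ) (hδ : 0 ≤ δ) (h : ∀ z ∈ s, δ ≤ ‖z‖) :
    δ ^ Multiset.card s ≤ ‖s.prod‖ := by
  induction s using Multiset.induction with
  | empty => simp
  | cons a s ih =>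
    rw [Multiset.card_cons, Multiset.prod_cons, norm_mul, pow_succ, mul_comm]
    exact mul_le_mul (h a (Multiset.mem_cons_self a s))
      (ih fun z hz => h z (Multiset.mem_cons_of_mem hz)) (pow_nonneg hδ _) (norm_nonneg _)

/-- a small root -/
theorem small_root (q : ℂ[X]) (hq : q.Monic) (hn : 0 < q.natDegree) :
    ∃ T, q.eval T = 0 ∧ ‖T‖ ^ q.natDegree ≤ ‖q.coeff 0‖ := by
  have hs := IsAlgClosed.splits q
  have hcard : Multiset.card q.roots = q.natDegree := hs.natDegree_eq_card_roots.symm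
  have hne : q.roots.toFinset.Nonempty := by
    rw [Multiset.toFinset_nonempty]
    intro h0
    rw [h0, Multiset.card_zero] at hcard
    omega
  obtain ⟨T, hT, hmin⟩ := Finset.exists_min_image q.roots.toFinset (fun z => ‖z‖) hne
  rw [Multiset.mem_toFinset] at hT
  refine ⟨T, (mem_roots'.mp hT).2, ?_⟩
  have h1 := prod_ge q.roots ‖T‖ (norm_nonneg T) (fun z hz => hmin z (Multiset.mem_toFinset.mpr hz))
  rw [hcard] at h1
  have h2 := hs.coeff_zero_eq_prod_roots_of_monic hq
  rw [h2, norm_mul, norm_pow, norm_neg, norm_one, one_pow, one_mul]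
  exact h1

/-- the set `R ≠ 0` is dense in the affine space -/
theorem dense_ne {d : ℕ} (R : MvPolynomial (Fin d) ℂ) (hR : R ≠ 0) (t₀ : Fin d → ℂ) :
    t₀ ∈ closure {t : Fin d → ℂ | MvPolynomial.eval t R ≠ 0} := by
  by_contra hcon
  apply hR
  rw [mem_closure_iff_frequently, Filter.not_frequently] at hcon
  have h1 : (fun t : Fin d → ℂ => MvPolynomial.eval t R) =ᶠ[𝓝 t₀] fun _ => 0 := by
    filter_upwards [hcon] with t ht
    simpa using ht
  have h2 : AnalyticOnNhd ℂ (fun t : Fin d → ℂ => MvPolynomial.eval t R) Set.univ :=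
    AnalyticOnNhd.eval_mvPolynomial R
  have h3 := h2.eq_of_eventuallyEq (analyticOnNhd_const) h1
  apply MvPolynomial.funext
  intro t
  rw [map_zero]
  exact congrFun h3 t

theorem continuous_eval {σ : Type} (q : MvPolynomial σ ℂ) :
    Continuous fun c : σ → ℂ => MvPolynomial.eval c q := MvPolynomial.continuous_eval q

/-- bound for the roots -/
theorem root_bound (q : ℂ[X]) (hq : q.Monic) (z : ℂ) (hz : q.eval z = 0) :
    ‖z‖ ≤ ∑ i ∈ Finset.range q.natDegree, ‖q.coeff i‖ + 1 := by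
  have h1 := IsRoot.norm_lt_cauchyBound hq.ne_zero (a := z) hz
  have h2 : cauchyBound q ≤ ∑ i ∈ Finset.range q.natDegree, ‖q.coeff i‖₊ + 1 := by
    unfold cauchyBound
    rw [hq.leadingCoeff, nnnorm_one, div_one]
    gcongr
    apply Finset.sup_le
    intro i hi
    exact Finset.single_le_sum (f := fun i => ‖q.coeff i‖₊) (fun _ _ => by simp) hi
  have h3 := (h1.le.trans h2)
  have h4 : ((‖z‖₊ : NNReal) : ℝ) ≤ ((∑ i ∈ Finset.range q.natDegree, ‖q.coeff i‖₊ + 1 : NNReal) : ℝ) :=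
    NNReal.coe_le_coe.mpr h3
  push_cast at h4
  exact h4

/-- a polynomial which vanishes at `c₀` and not at the other points of a finite set -/
theorem exists_sep {β : Type} (c₀ : β → ℂ) (S : Set (β → ℂ)) (hS : S.Finite) :
    ∃ h : MvPolynomial β ℂ, MvPolynomial.eval c₀ h = 0 ∧
      ∀ c ∈ S, MvPolynomial.eval c h = 0 → c = c₀ := by
  classical
  have hw : ∀ c : β → ℂ, ∃ w : MvPolynomial β ℂ, c ≠ c₀ →
      MvPolynomial.eval c₀ w = 1 ∧ MvPolynomial.eval c w = 0 := by
    intro c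
    by_cases hc : c = c₀
    · exact ⟨0, fun h => absurd hc h⟩
    · obtain ⟨b, hb⟩ := Function.ne_iff.mp hc
      refine ⟨MvPolynomial.C ((c₀ b - c b)⁻¹) * (MvPolynomial.X b - MvPolynomial.C (c b)),
        fun _ => ⟨?_, ?_⟩⟩
      · rw [map_mul, map_sub, MvPolynomial.eval_C, MvPolynomial.eval_X, MvPolynomial.eval_C,
          inv_mul_cancel₀ (sub_ne_zero.mpr (Ne.symm hb))]
      · rw [map_mul, map_sub, MvPolynomial.eval_X, MvPolynomial.eval_C, MvPolynomial.eval_C,
          sub_self, mul_zero]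
  choose w hw using hw
  refine ⟨1 - ∏ c ∈ hS.toFinset.erase c₀, w c, ?_, ?_⟩
  · rw [map_sub, map_one, map_prod, Finset.prod_eq_one, sub_self]
    intro c hc
    exact (hw c (Finset.ne_of_mem_erase hc)).1
  · intro c hc h0
    by_contra hne
    rw [map_sub, map_one, map_prod, Finset.prod_eq_zero
      (Finset.mem_erase.mpr ⟨hne, hS.mem_toFinset.mpr hc⟩) (hw c hne).2, sub_zero] at h0
    exact one_ne_zero h0

theorem core {β : Type} [Finite β] {d : ℕ} {A : Type} [CommRing A] [IsDomain A]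
    [Algebra (MvPolynomial (Fin d) ℂ) A] [FaithfulSMul (MvPolynomial (Fin d) ℂ) A]
    [Algebra.IsIntegral (MvPolynomial (Fin d) ℂ) A] (π : MvPolynomial β ℂ →+* A)
    (hπ : Function.Surjective π)
    (hC : ∀ z : ℂ, π (MvPolynomial.C z) =
      algebraMap (MvPolynomial (Fin d) ℂ) A (MvPolynomial.C z))
    (r : MvPolynomial β ℂ) (hr : π r ≠ 0) (c₀ : β → ℂ)
    (hc₀ : ∀ H, π H = 0 → MvPolynomial.eval c₀ H = 0) :
    c₀ ∈ closure {c : β → ℂ | (∀ H, π H = 0 → MvPolynomial.eval c H = 0) ∧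
      MvPolynomial.eval c r ≠ 0} := by
  classical
  -- points and homomorphisms
  have toHom : ∀ c : β → ℂ, (∀ H, π H = 0 → MvPolynomial.eval c H = 0) →
      ∃ ψ : A →+* ℂ, ∀ H, ψ (π H) = MvPolynomial.eval c H := by
    intro c hc
    refine ⟨RingHom.liftOfSurjective π hπ ⟨MvPolynomial.eval c, fun H hH => hc H hH⟩, fun H => ?_⟩
    have := RingHom.liftOfRightInverse_comp_apply π (Function.surjInv hπ)
      (Function.rightInverse_surjInv hπ) ⟨MvPolynomial.eval c, fun H hH => hc H hH⟩ H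
    exact this
  have ofHom : ∀ (ψ : A →+* ℂ) (t : Fin d → ℂ),
      (∀ a, ψ (algebraMap (MvPolynomial (Fin d) ℂ) A a) = MvPolynomial.eval t a) →
      ∀ H, ψ (π H) = MvPolynomial.eval (fun b => ψ (π (MvPolynomial.X b))) H := by
    intro ψ t hψ H
    have : ψ.comp π = MvPolynomial.eval (fun b => ψ (π (MvPolynomial.X b))) := by
      apply MvPolynomial.ringHom_ext
      · intro z
        rw [RingHom.comp_apply, hC, hψ, MvPolynomial.eval_C, MvPolynomial.eval_C]
      · intro b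
        rw [RingHom.comp_apply, MvPolynomial.eval_X]
    exact RingHom.congr_fun this H
  -- lifts of the coordinates of the affine space
  choose G hG using fun i : Fin d => hπ (algebraMap (MvPolynomial (Fin d) ℂ) A (MvPolynomial.X i))
  have ovr : ∀ (c : β → ℂ) (ψ : A →+* ℂ), (∀ H, ψ (π H) = MvPolynomial.eval c H) →
      ∀ a, ψ (algebraMap (MvPolynomial (Fin d) ℂ) A a) =
        MvPolynomial.eval (fun i => MvPolynomial.eval c (G i)) a := by
    intro c ψ hψ a
    have : ψ.comp (algebraMap (MvPolynomial (Fin d) ℂ) A) =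
        MvPolynomial.eval (fun i => MvPolynomial.eval c (G i)) := by
      apply MvPolynomial.ringHom_ext
      · intro z
        rw [RingHom.comp_apply, ← hC, hψ, MvPolynomial.eval_C, MvPolynomial.eval_C]
      · intro i
        rw [RingHom.comp_apply, ← hG, hψ, MvPolynomial.eval_X]
    exact RingHom.congr_fun this a
  -- integral equations of the coordinates
  choose M hM hMb using fun b : β =>
    Algebra.IsIntegral.isIntegral (R := MvPolynomial (Fin d) ℂ) (π (MvPolynomial.X b))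
  have root : ∀ (ψ : A →+* ℂ) (t : Fin d → ℂ),
      (∀ a, ψ (algebraMap (MvPolynomial (Fin d) ℂ) A a) = MvPolynomial.eval t a) →
      ∀ b, ((M b).map (MvPolynomial.eval t)).eval (ψ (π (MvPolynomial.X b))) = 0 := by
    intro ψ t hψ b
    have h1 := hom_eval₂ (M b) (algebraMap (MvPolynomial (Fin d) ℂ) A) ψ (π (MvPolynomial.X b))
    rw [hMb, map_zero] at h1
    rw [eval_map]
    have h2 : ψ.comp (algebraMap (MvPolynomial (Fin d) ℂ) A) = MvPolynomial.eval t :=
      RingHom.ext hψ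
    rw [h2] at h1
    exact h1.symm
  obtain ⟨ψ₀, hψ₀⟩ := toHom c₀ hc₀
  set t₀ : Fin d → ℂ := fun i => MvPolynomial.eval c₀ (G i) with ht₀
  have hψ₀' := ovr c₀ ψ₀ hψ₀
  -- the fibre over `t₀` is finite
  have hfin : {c : β → ℂ | (∀ H, π H = 0 → MvPolynomial.eval c H = 0) ∧
      ∀ i, MvPolynomial.eval c (G i) = t₀ i}.Finite := by
    apply Set.Finite.subset (Set.Finite.pi (t := fun b : β =>
      {z : ℂ | ((M b).map (MvPolynomial.eval t₀)).eval z = 0}) (fun b => by
        apply ((M b).map (MvPolynomial.eval t₀)).finite_setOfPred_isRoot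
        exact ((hM b).map _).ne_zero))
    rintro c ⟨hc, hct⟩ b -
    obtain ⟨ψ, hψ⟩ := toHom c hc
    have h1 := ovr c ψ hψ
    have h2 : (fun i => MvPolynomial.eval c (G i)) = t₀ := funext hct
    rw [h2] at h1
    have h3 := root ψ t₀ h1 b
    rw [hψ, MvPolynomial.eval_X] at h3
    exact h3
  obtain ⟨h, hh0, hh⟩ := exists_sep c₀ _ hfin
  -- the minimal polynomial of `h`
  have hint : IsIntegral (MvPolynomial (Fin d) ℂ) (π h) := Algebra.IsIntegral.isIntegral _
  obtain ⟨χ, hχ⟩ : ∃ χ, χ = minpoly (MvPolynomial (Fin d) ℂ) (π h) := ⟨_, rfl⟩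
  have hχm : χ.Monic := by
    rw [hχ]
    exact minpoly.monic hint
  have hχd : 0 < χ.natDegree := by
    rw [hχ]
    exact minpoly.natDegree_pos hint
  have hχ0 : MvPolynomial.eval t₀ (χ.coeff 0) = 0 := by
    have h1 := hom_eval₂ χ (algebraMap (MvPolynomial (Fin d) ℂ) A) ψ₀ (π h)
    have h2 : eval₂ (algebraMap (MvPolynomial (Fin d) ℂ) A) (π h) χ = 0 := by
      rw [hχ]
      exact minpoly.aeval _ _
    rw [h2, map_zero, hψ₀, hh0] at h1
    have h3 : ψ₀.comp (algebraMap (MvPolynomial (Fin d) ℂ) A) = MvPolynomial.eval t₀ :=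
      RingHom.ext hψ₀'
    rw [h3, eval₂_at_zero] at h1
    exact h1.symm
  -- the element `R`
  obtain ⟨R, hR0, a, hRa⟩ : ∃ R : MvPolynomial (Fin d) ℂ, R ≠ 0 ∧
      ∃ a : A, algebraMap (MvPolynomial (Fin d) ℂ) A R = π r * a := by
    have h1 := Ideal.comap_ne_bot_of_integral_mem (R := MvPolynomial (Fin d) ℂ)
      (I := Ideal.span {π r}) hr (Ideal.mem_span_singleton_self _)
      (Algebra.IsIntegral.isIntegral _)
    obtain ⟨R, hR, hR0⟩ := Submodule.exists_mem_ne_zero_of_ne_bot h1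
    refine ⟨R, hR0, ?_⟩
    obtain ⟨a, ha⟩ := Ideal.mem_span_singleton'.mp (Ideal.mem_comap.mp hR)
    exact ⟨a, by rw [← ha, mul_comm]⟩
  obtain ⟨t, htR, htt⟩ := mem_closure_iff_seq_limit.mp (dense_ne R hR0 t₀)
  have hev : ∀ q : MvPolynomial (Fin d) ℂ,
      Tendsto (fun n => MvPolynomial.eval (t n) q) atTop (𝓝 (MvPolynomial.eval t₀ q)) :=
    fun q => ((MvPolynomial.continuous_eval q).tendsto t₀).comp htt
  -- the points
  have hpt : ∀ n, ∃ ψ : A →+* ℂ,
      (∀ a, ψ (algebraMap (MvPolynomial (Fin d) ℂ) A a) = MvPolynomial.eval (t n) a) ∧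
      ‖ψ (π h)‖ ^ χ.natDegree ≤ ‖MvPolynomial.eval (t n) (χ.coeff 0)‖ := by
    intro n
    have e1 : (χ.map (MvPolynomial.eval (t n))).natDegree = χ.natDegree := hχm.natDegree_map _
    obtain ⟨T, hT, hT2⟩ := small_root (χ.map (MvPolynomial.eval (t n))) (hχm.map _)
      (by rw [e1]; exact hχd)
    rw [e1, coeff_map] at hT2
    rw [eval_map, hχ] at hT
    obtain ⟨ψ, hψ, hψT⟩ := exists_point (π h) (MvPolynomial.eval (t n)) T hT
    exact ⟨ψ, hψ, by rw [hψT]; exact hT2⟩
  choose ψ hψ hψT using hpt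
  set c : ℕ → β → ℂ := fun n b => ψ n (π (MvPolynomial.X b)) with hc
  have hψc : ∀ n H, ψ n (π H) = MvPolynomial.eval (c n) H := fun n => ofHom (ψ n) (t n) (hψ n)
  have hcV : ∀ n H, π H = 0 → MvPolynomial.eval (c n) H = 0 := by
    intro n H hH
    rw [← hψc, hH, map_zero]
  have hcG : ∀ n i, MvPolynomial.eval (c n) (G i) = t n i := by
    intro n i
    rw [← hψc, hG, hψ, MvPolynomial.eval_X]
  have hcr : ∀ n, MvPolynomial.eval (c n) r ≠ 0 := by
    intro n h0
    have h1 := hψ n R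
    rw [hRa, map_mul, hψc, h0, zero_mul] at h1
    exact htR n h1.symm
  -- boundedness
  have hbd : ∀ b, ∃ B : ℝ, ∀ n, ‖c n b‖ ≤ B := by
    intro b
    have h1 : Tendsto (fun n => ∑ i ∈ Finset.range (M b).natDegree,
        ‖MvPolynomial.eval (t n) ((M b).coeff i)‖ + 1) atTop
        (𝓝 (∑ i ∈ Finset.range (M b).natDegree,
          ‖MvPolynomial.eval t₀ ((M b).coeff i)‖ + 1)) :=
      (tendsto_finsetSum _ fun i _ => (hev _).norm).add_const 1
    obtain ⟨B, hB⟩ := h1.bddAbove_range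
    refine ⟨B, fun n => ?_⟩
    have h2 := root_bound ((M b).map (MvPolynomial.eval (t n))) ((hM b).map _) (c n b)
      (root (ψ n) (t n) (hψ n) b)
    rw [(hM b).natDegree_map] at h2
    simp only [coeff_map] at h2
    exact h2.trans (hB ⟨n, rfl⟩)
  choose B hB using hbd
  have hcomp : IsCompact (Set.pi Set.univ fun b : β => Metric.closedBall (0 : ℂ) (B b)) :=
    isCompact_univ_pi fun b => isCompact_closedBall _ _
  obtain ⟨c', -, φ, hφ, hlim⟩ := hcomp.tendsto_subseq (x := c) (fun n b _ => by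
    rw [mem_closedBall_zero_iff]
    exact hB b n)
  have hevc : ∀ q : MvPolynomial β ℂ,
      Tendsto (fun n => MvPolynomial.eval (c (φ n)) q) atTop (𝓝 (MvPolynomial.eval c' q)) :=
    fun q => ((MvPolynomial.continuous_eval q).tendsto c').comp hlim
  have hc' : c' = c₀ := by
    apply hh
    · refine ⟨fun H hH => ?_, fun i => ?_⟩
      · have h1 := hevc H
        simp only [hcV _ H hH] at h1
        exact (tendsto_nhds_unique h1 tendsto_const_nhds)
      · have h1 := hevc (G i)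
        simp only [hcG] at h1
        have h2 : Tendsto (fun n => t (φ n) i) atTop (𝓝 (t₀ i)) :=
          (((continuous_apply i).tendsto t₀).comp htt).comp hφ.tendsto_atTop
        exact tendsto_nhds_unique h1 h2
    · have h1 : Tendsto (fun n => ‖MvPolynomial.eval (c (φ n)) h‖ ^ χ.natDegree) atTop
          (𝓝 (‖MvPolynomial.eval c' h‖ ^ χ.natDegree)) := ((hevc h).norm).pow _
      have h2 : Tendsto (fun n => ‖MvPolynomial.eval (t (φ n)) (χ.coeff 0)‖) atTop
          (𝓝 (‖MvPolynomial.eval t₀ (χ.coeff 0)‖)) := ((hev _).norm).comp hφ.tendsto_atTop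
      rw [hχ0, norm_zero] at h2
      have h3 : ‖MvPolynomial.eval c' h‖ ^ χ.natDegree ≤ 0 := by
        refine le_of_tendsto_of_tendsto' h1 h2 fun n => ?_
        rw [← hψc]
        exact hψT (φ n)
      have h4 : ‖MvPolynomial.eval c' h‖ ^ χ.natDegree = 0 :=
        le_antisymm h3 (pow_nonneg (norm_nonneg _) _)
      exact norm_eq_zero.mp (pow_eq_zero_iff hχd.ne' |>.mp h4)
  rw [← hc']
  refine mem_closure_of_tendsto hlim (Eventually.of_forall fun n => ?_)
  exact ⟨hcV (φ n), hcr (φ n)⟩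

theorem den_core : ∀ (β : Type) [Finite β] (p : Ideal (MvPolynomial β ℂ)) [p.IsPrime]
    (r : MvPolynomial β ℂ), r ∉ p →
    ∀ c₀ : β → ℂ, (∀ H ∈ p, MvPolynomial.eval c₀ H = 0) →
      c₀ ∈ closure {c : β → ℂ | (∀ H ∈ p, MvPolynomial.eval c H = 0) ∧
        MvPolynomial.eval c r ≠ 0} := by
  intro β _ p _ r hr c₀ hc₀
  obtain ⟨d, g, hg, hgi⟩ := exists_integral_inj_algHom_of_fg ℂ (MvPolynomial β ℂ ⧸ p)
  let _ : Algebra (MvPolynomial (Fin d) ℂ) (MvPolynomial β ℂ ⧸ p) := g.toRingHom.toAlgebra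
  have hmap : ∀ x, algebraMap (MvPolynomial (Fin d) ℂ) (MvPolynomial β ℂ ⧸ p) x = g x :=
    fun _ => rfl
  have h1 : FaithfulSMul (MvPolynomial (Fin d) ℂ) (MvPolynomial β ℂ ⧸ p) :=
    (faithfulSMul_iff_algebraMap_injective _ _).2 hg
  have h2 : Algebra.IsIntegral (MvPolynomial (Fin d) ℂ) (MvPolynomial β ℂ ⧸ p) := ⟨hgi⟩
  have h3 := core (Ideal.Quotient.mk p) Ideal.Quotient.mk_surjective (fun z => by
    rw [hmap]
    have : g (MvPolynomial.C z) = algebraMap ℂ _ z := g.commutes z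
    rw [this]
    rfl) r (fun h0 => hr (Ideal.Quotient.eq_zero_iff_mem.mp h0)) c₀
    (fun H hH => hc₀ H (Ideal.Quotient.eq_zero_iff_mem.mp hH))
  simpa only [Ideal.Quotient.eq_zero_iff_mem] using h3

end Pool.Agent.J6H35.FM
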