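import Pool.Agent.J6H55.FM.Stm
import Pool.Agent.J6H35.FM.Core

/-!
# FM-DEN
-/

set_option autoImplicit false

namespace Pool.Agent.J6H35.FM

theorem den : Pool.Agent.J6H55.FM.S_den := den_core

end Pool.Agent.J6H35.FM
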